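import Pool.Agent.H20.HE.Quad

/-!
# The points over the exceptional parameters are limits (helper97, for helper20)
-/

set_option autoImplicit false

namespace Pool.Agent.H97.HE

open Polynomial Filter Topology
open Pool.Agent.H20.HE

section Root

variable {L : Type} [Field L] {a : AbsoluteValue L ℝ}

theorem sub_le_max (ha : ∀ x y, a (x + y) ≤ max (a x) (a y)) (x y : L) : a (x - y) ≤ max (a x) (a y) := by
  rw [sub_eq_add_neg]
  have h := ha x (-y)
  rwa [AbsoluteValue.map_neg] at h

/-- If all roots are large then the constant coefficient dominates. -/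
theorem coeff_lt_of_roots (ha : ∀ x y, a (x + y) ≤ max (a x) (a y)) {ρ : ℝ} (hρ : 0 ≤ ρ)
    (S : Multiset L) (hS : ∀ s ∈ S, ρ < a s) :
    0 < a ((S.map fun s => Polynomial.X - Polynomial.C s).prod.coeff 0) ∧
    (∀ k, a ((S.map fun s => Polynomial.X - Polynomial.C s).prod.coeff k) * ρ ^ k ≤
      a ((S.map fun s => Polynomial.X - Polynomial.C s).prod.coeff 0)) ∧
    ∀ k, 0 < k → a ((S.map fun s => Polynomial.X - Polynomial.C s).prod.coeff k) * ρ ^ k <
      a ((S.map fun s => Polynomial.X - Polynomial.C s).prod.coeff 0) := by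
  induction S using Multiset.induction_on with
  | empty =>
    simp only [Multiset.map_zero, Multiset.prod_zero, Polynomial.coeff_one]
    refine ⟨by simp, fun k => ?_, fun k hk => ?_⟩
    · split_ifs with h
      · subst h
        simp
      · simp
    · rw [if_neg hk.ne']
      simp
  | cons s S ih =>
    obtain ⟨h0, h1, h2⟩ := ih fun x hx => hS x (Multiset.mem_cons_of_mem hx)
    have hs := hS s (Multiset.mem_cons_self s S)
    have hs0 : 0 < a s := lt_of_le_of_lt hρ hs
    simp only [Multiset.map_cons, Multiset.prod_cons]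
    set f := (S.map fun s => Polynomial.X - Polynomial.C s).prod with hf
    have e0 : ((Polynomial.X - Polynomial.C s) * f).coeff 0 = - (s * f.coeff 0) := by
      rw [sub_mul, Polynomial.coeff_sub, Polynomial.coeff_X_mul_zero, Polynomial.coeff_C_mul]
      ring
    have e0' : a (((Polynomial.X - Polynomial.C s) * f).coeff 0) = a s * a (f.coeff 0) := by
      rw [e0, AbsoluteValue.map_neg, map_mul]
    have hstrict : ∀ k, 0 < k → a (((Polynomial.X - Polynomial.C s) * f).coeff k) * ρ ^ k <
        a s * a (f.coeff 0) := by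
      intro k hk
      obtain ⟨j, rfl⟩ := Nat.exists_eq_succ_of_ne_zero hk.ne'
      have e1 : ((Polynomial.X - Polynomial.C s) * f).coeff (j + 1) =
          f.coeff j - s * f.coeff (j + 1) := by
        rw [sub_mul, Polynomial.coeff_sub, Polynomial.coeff_X_mul, Polynomial.coeff_C_mul]
      rw [Nat.succ_eq_add_one, e1]
      refine lt_of_le_of_lt (mul_le_mul_of_nonneg_right (sub_le_max ha _ _) (by positivity)) ?_
      rw [max_mul_of_nonneg _ _ (by positivity)]
      refine max_lt ?_ ?_
      · calc a (f.coeff j) * ρ ^ (j + 1) = ρ * (a (f.coeff j) * ρ ^ j) := by ring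
          _ ≤ ρ * a (f.coeff 0) := mul_le_mul_of_nonneg_left (h1 j) hρ
          _ < a s * a (f.coeff 0) := mul_lt_mul_of_pos_right hs h0
      · rw [map_mul]
        calc a s * a (f.coeff (j + 1)) * ρ ^ (j + 1) = a s * (a (f.coeff (j + 1)) * ρ ^ (j + 1)) := by
              ring
          _ < a s * a (f.coeff 0) := mul_lt_mul_of_pos_left (h2 (j + 1) (Nat.succ_pos j)) hs0
    refine ⟨?_, fun k => ?_, fun k hk => ?_⟩
    · rw [e0']
      positivity
    · rcases Nat.eq_zero_or_pos k with rfl | hk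
      · rw [pow_zero, mul_one]
      · rw [e0']
        exact (hstrict k hk).le
    · rw [e0']
      exact hstrict k hk

/-- A polynomial with small constant coefficient has a small root. -/
theorem exists_small_root [IsAlgClosed L] (ha : ∀ x y, a (x + y) ≤ max (a x) (a y)) {ρ : ℝ}
    (hρ : 0 ≤ ρ) (f : Polynomial L) {k : ℕ} (hk : 0 < k) (hf : f.coeff k ≠ 0)
    (h : a (f.coeff 0) ≤ a (f.coeff k) * ρ ^ k) : ∃ s, f.eval s = 0 ∧ a s ≤ ρ := by
  by_contra hno
  push Not at hno
  have hf0 : f ≠ 0 := by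
    rintro rfl
    exact hf (Polynomial.coeff_zero k)
  have hs : f.Splits := IsAlgClosed.splits f
  have h1 := coeff_lt_of_roots ha hρ f.roots (fun s hs => hno s (Polynomial.mem_roots'.1 hs).2)
  have h2 : f = Polynomial.C f.leadingCoeff *
      (f.roots.map fun s => Polynomial.X - Polynomial.C s).prod := hs.eq_prod_roots
  have h3 := h1.2.2 k hk
  have hc : 0 < a f.leadingCoeff := a.pos (Polynomial.leadingCoeff_ne_zero.2 hf0)
  have h4 : ∀ j, f.coeff j = f.leadingCoeff *
      (f.roots.map fun s => Polynomial.X - Polynomial.C s).prod.coeff j := by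
    intro j
    conv_lhs => rw [h2]
    rw [Polynomial.coeff_C_mul]
  rw [h4 0, h4 k, map_mul, map_mul, mul_assoc] at h
  exact absurd h (not_le.2 (mul_lt_mul_of_pos_left h3 hc))

end Root

section

variable {K : Type} [Field K] (w : AbsoluteValue K ℝ)

/-- small nonzero parameters -/
def small : Filter K := Filter.comap w (𝓝[>] (0 : ℝ))

/-- convergence for small parameters -/
def Cv (y : K → K) (y0 : K) : Prop := Tendsto (fun η => w (y η - y0)) (small w) (𝓝 0)

theorem small_neBot (h : ∃ x : K, x ≠ 0 ∧ w x < 1) : (small w).NeBot := by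
  obtain ⟨x, hx, h1⟩ := h
  rw [small, Filter.comap_neBot_iff]
  intro t ht
  obtain ⟨ε, hε, ht⟩ := mem_nhdsGT_iff_exists_Ioo_subset.1 ht
  obtain ⟨n, hn⟩ := exists_pow_lt_of_lt_one hε h1
  exact ⟨x ^ n, ht ⟨by rw [map_pow]; exact pow_pos (w.pos hx) n, by rw [map_pow]; exact hn⟩⟩

theorem tendsto_w : Tendsto w (small w) (𝓝 0) := tendsto_comap.mono_right nhdsWithin_le_nhds

theorem ev_ne_zero : ∀ᶠ η in small w, η ≠ 0 := by
  have h : ∀ᶠ η in small w, w η ∈ Set.Ioi (0 : ℝ) := tendsto_comap.eventually self_mem_nhdsWithin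
  filter_upwards [h] with η hη h0
  rw [h0, map_zero, Set.mem_Ioi] at hη
  exact lt_irrefl _ hη

theorem ev_notMem (E : Finset K) : ∀ᶠ η in small w, η ∉ E := by
  have h : ∀ᶠ η in small w, ∀ e ∈ E, η ≠ e := by
    rw [Finset.eventually_all]
    intro e _
    by_cases he : e = 0
    · rw [he]
      exact ev_ne_zero w
    · have h1 : ∀ᶠ η in small w, w η < w e := (tendsto_w w).eventually_lt_const (w.pos he)
      filter_upwards [h1] with η hη h2
      rw [h2] at hη
      exact lt_irrefl _ hη
  filter_upwards [h] with η hη h2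
  exact hη η h2 rfl

theorem Cv.const (y : K) : Cv w (fun _ => y) y := by
  unfold Cv
  simp only [sub_self, map_zero]
  exact tendsto_const_nhds

theorem Cv.add {y z : K → K} {y0 z0 : K} (hy : Cv w y y0) (hz : Cv w z z0) :
    Cv w (fun η => y η + z η) (y0 + z0) := by
  unfold Cv at *
  have h := hy.add hz
  rw [add_zero] at h
  refine squeeze_zero (fun η => w.nonneg _) (fun η => ?_) h
  have e : y η + z η - (y0 + z0) = (y η - y0) + (z η - z0) := by ring
  rw [e]
  exact w.add_le _ _

theorem Cv.mul {y z : K → K} {y0 z0 : K} (hy : Cv w y y0) (hz : Cv w z z0) :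
    Cv w (fun η => y η * z η) (y0 * z0) := by
  unfold Cv at *
  have h := ((hy.mul hz).add (hz.const_mul (w y0))).add (hy.mul_const (w z0))
  simp only [mul_zero, zero_mul, add_zero] at h
  refine squeeze_zero (fun η => w.nonneg _) (fun η => ?_) h
  have e : y η * z η - y0 * z0 = ((y η - y0) * (z η - z0) + y0 * (z η - z0)) + (y η - y0) * z0 := by ring
  rw [e]
  refine (w.add_le _ _).trans ?_
  rw [map_mul w (y η - y0) z0]
  refine add_le_add_left ((w.add_le _ _).trans ?_) _
  rw [map_mul, map_mul]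

theorem Cv.id : Cv w (fun η => η) 0 := by
  unfold Cv
  simp only [sub_zero]
  exact tendsto_w w

theorem Cv.eval (f : K[X]) : Cv w (fun η => f.eval η) (f.eval 0) := by
  induction f using Polynomial.induction_on' with
  | add p q hp hq =>
    simp only [eval_add]
    exact Cv.add w hp hq
  | monomial n a =>
    induction n with
    | zero =>
      simp only [monomial_zero_left, eval_C]
      exact Cv.const w a
    | succ n ih =>
      have e : ∀ x : K, (monomial (n + 1) a).eval x = (monomial n a).eval x * x := by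
        intro x
        rw [eval_monomial, eval_monomial, pow_succ, mul_assoc]
      simp only [e]
      exact Cv.mul w ih (Cv.id w)

theorem Cv.mvEval {n : ℕ} (P : MvPolynomial (Fin n) K) (y : Fin n → K → K) (y0 : Fin n → K)
    (h : ∀ i, Cv w (y i) (y0 i)) :
    Cv w (fun η => MvPolynomial.eval (fun i => y i η) P) (MvPolynomial.eval y0 P) := by
  induction P using MvPolynomial.induction_on with
  | C a =>
    simp only [MvPolynomial.eval_C]
    exact Cv.const w a
  | add p q hp hq =>
    simp only [map_add]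
    exact Cv.add w hp hq
  | mul_X p i hp =>
    simp only [map_mul, MvPolynomial.eval_X]
    exact Cv.mul w hp (h i)

/-- a root which tends to zero -/
theorem root_fun [IsAlgClosed K] (hna : ∀ x y, w (x + y) ≤ max (w x) (w y)) (F : K[X][X]) (k : ℕ)
    (hk : 0 < k) (h0 : (F.coeff 0).eval 0 = 0) (hk0 : (F.coeff k).eval 0 ≠ 0) :
    ∃ z : K → K, Cv w z 0 ∧ ∀ᶠ η in small w, (F.map (evalRingHom η)).eval (z η) = 0 := by
  classical
  obtain ⟨ρ, hρ⟩ : ∃ ρ : K → ℝ, ρ = fun η =>
    (2 * w ((F.coeff 0).eval η) / w ((F.coeff k).eval 0)) ^ ((k : ℝ)⁻¹) := ⟨_, rfl⟩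
  have hw : 0 < w ((F.coeff k).eval 0) := w.pos hk0
  have hρ0 : ∀ η, 0 ≤ ρ η := by
    intro η
    rw [hρ]
    have := w.nonneg ((F.coeff 0).eval η)
    positivity
  have hρt : Tendsto ρ (small w) (𝓝 0) := by
    have h1 : Tendsto (fun η => w ((F.coeff 0).eval η)) (small w) (𝓝 0) := by
      have := Cv.eval w (F.coeff 0)
      unfold Cv at this
      rw [h0] at this
      simpa only [sub_zero] using this
    have h2 : Tendsto (fun η => 2 * w ((F.coeff 0).eval η) / w ((F.coeff k).eval 0)) (small w) (𝓝 0) := by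
      have := (h1.const_mul 2).div_const (w ((F.coeff k).eval 0))
      rwa [mul_zero, zero_div] at this
    have h3 := h2.rpow_const (p := (k : ℝ)⁻¹) (Or.inr (by positivity))
    rw [Real.zero_rpow (by positivity)] at h3
    rw [hρ]
    exact h3
  have hev : ∀ᶠ η in small w, ∃ s, (F.map (evalRingHom η)).eval s = 0 ∧ w s ≤ ρ η := by
    have h1 := Cv.eval w (F.coeff k)
    unfold Cv at h1
    have h2 : ∀ᶠ η in small w, w ((F.coeff k).eval η - (F.coeff k).eval 0) < w ((F.coeff k).eval 0) / 2 :=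
      h1.eventually_lt_const (by positivity)
    filter_upwards [h2] with η hη
    have h3 : w ((F.coeff k).eval 0) / 2 ≤ w ((F.coeff k).eval η) := by
      have h4 : w ((F.coeff k).eval 0) ≤ w ((F.coeff k).eval η) + w ((F.coeff k).eval η - (F.coeff k).eval 0) := by
        have e : (F.coeff k).eval 0 = (F.coeff k).eval η + -((F.coeff k).eval η - (F.coeff k).eval 0) := by ring
        calc w ((F.coeff k).eval 0) = w ((F.coeff k).eval η + -((F.coeff k).eval η - (F.coeff k).eval 0)) := by
              rw [← e]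
          _ ≤ _ := w.add_le _ _
          _ = _ := by rw [AbsoluteValue.map_neg]
      linarith
    have c0 : (F.map (evalRingHom η)).coeff 0 = (F.coeff 0).eval η := by
      rw [coeff_map]; rfl
    have ck : (F.map (evalRingHom η)).coeff k = (F.coeff k).eval η := by
      rw [coeff_map]; rfl
    apply exists_small_root hna (hρ0 η) _ hk
    · rw [ck]
      intro h
      rw [h, map_zero] at h3
      linarith
    · rw [c0, ck, hρ]
      have hx : 0 ≤ 2 * w ((F.coeff 0).eval η) / w ((F.coeff k).eval 0) := by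
        have := w.nonneg ((F.coeff 0).eval η)
        positivity
      have e : ((2 * w ((F.coeff 0).eval η) / w ((F.coeff k).eval 0)) ^ ((k : ℝ)⁻¹)) ^ k =
          2 * w ((F.coeff 0).eval η) / w ((F.coeff k).eval 0) := Real.rpow_inv_natCast_pow hx hk.ne'
      simp only [e]
      calc w ((F.coeff 0).eval η) = w ((F.coeff k).eval 0) / 2 *
            (2 * w ((F.coeff 0).eval η) / w ((F.coeff k).eval 0)) := by
            field_simp
        _ ≤ _ := mul_le_mul_of_nonneg_right h3 hx
  refine ⟨fun η => if h : ∃ s, (F.map (evalRingHom η)).eval s = 0 ∧ w s ≤ ρ η then h.choose else 0, ?_, ?_⟩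
  · unfold Cv
    refine squeeze_zero (fun η => w.nonneg _) (fun η => ?_) hρt
    beta_reduce
    rw [sub_zero]
    by_cases h : ∃ s, (F.map (evalRingHom η)).eval s = 0 ∧ w s ≤ ρ η
    · rw [dif_pos h]
      exact h.choose_spec.2
    · rw [dif_neg h, map_zero]
      exact hρ0 η
  · filter_upwards [hev] with η hη
    rw [dif_pos hη]
    exact hη.choose_spec.1

/-- solutions of a varying quadratic equation near a given solution -/
theorem conic_aux [IsAlgClosed K] (hna : ∀ x y, w (x + y) ≤ max (w x) (w y)) (A B G : K[X]) (u0 v0 : K)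
    (hv0 : v0 ≠ 0) (hne : ¬ (A.eval 0 = 0 ∧ B.eval 0 = 0 ∧ G.eval 0 = 0))
    (hQ : A.eval 0 * u0 ^ 2 + B.eval 0 * u0 * v0 + G.eval 0 * v0 ^ 2 = 0) :
    ∃ uf : K → K, Cv w uf u0 ∧
      ∀ᶠ η in small w, A.eval η * uf η ^ 2 + B.eval η * uf η * v0 + G.eval η * v0 ^ 2 = 0 := by
  obtain ⟨F, hF⟩ : ∃ F : K[X][X], F = C (A * C (u0 ^ 2) + B * C (u0 * v0) + G * C (v0 ^ 2)) +
      C (A * C (2 * u0) + B * C v0) * X + C A * X ^ 2 := ⟨_, rfl⟩
  have e0 : F.coeff 0 = A * C (u0 ^ 2) + B * C (u0 * v0) + G * C (v0 ^ 2) := by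
    rw [hF]
    simp only [coeff_add, coeff_C_zero, coeff_C_mul, coeff_X_zero, mul_zero, add_zero, coeff_X_pow]
    norm_num
  have e1 : F.coeff 1 = A * C (2 * u0) + B * C v0 := by
    rw [hF]
    simp only [coeff_add, coeff_C_mul, coeff_X_one, mul_one, coeff_X_pow]
    rw [coeff_C_of_ne_zero one_ne_zero]
    norm_num
  have e2 : F.coeff 2 = A := by
    rw [hF]
    simp only [coeff_add, coeff_C_mul, coeff_X_pow]
    rw [coeff_C_of_ne_zero two_ne_zero, coeff_X_of_ne_one (by norm_num : (2 : ℕ) ≠ 1)]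
    norm_num
  have h0 : (F.coeff 0).eval 0 = 0 := by
    rw [e0]
    simp only [eval_add, eval_mul, eval_C]
    linear_combination hQ
  have hk : ∃ k : ℕ, 0 < k ∧ (F.coeff k).eval 0 ≠ 0 := by
    by_cases hA : A.eval 0 = 0
    · refine ⟨1, one_pos, ?_⟩
      rw [e1]
      simp only [eval_add, eval_mul, eval_C, hA, zero_mul, zero_add]
      intro h
      have hB : B.eval 0 = 0 := (mul_eq_zero.1 h).resolve_right hv0
      apply hne
      refine ⟨hA, hB, ?_⟩
      rw [hA, hB] at hQ
      have h3 : G.eval 0 * v0 ^ 2 = 0 := by linear_combination hQ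
      exact (mul_eq_zero.1 h3).resolve_right (pow_ne_zero 2 hv0)
    · exact ⟨2, two_pos, by rw [e2]; exact hA⟩
  obtain ⟨k, hk1, hk2⟩ := hk
  obtain ⟨z, hz1, hz2⟩ := root_fun w hna F k hk1 h0 hk2
  refine ⟨fun η => u0 + z η, ?_, ?_⟩
  · have := Cv.add w (Cv.const w u0) hz1
    rwa [add_zero] at this
  · filter_upwards [hz2] with η hη
    rw [hF] at hη
    simp only [Polynomial.map_add, Polynomial.map_mul, map_C, map_X, Polynomial.map_pow, eval_add, eval_mul,
      eval_C, eval_X, eval_pow, coe_evalRingHom] at hη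
    linear_combination hη

theorem conic [IsAlgClosed K] (hna : ∀ x y, w (x + y) ≤ max (w x) (w y)) (A B G : K[X]) (u0 v0 : K)
    (hne : ¬ (A.eval 0 = 0 ∧ B.eval 0 = 0 ∧ G.eval 0 = 0))
    (hQ : A.eval 0 * u0 ^ 2 + B.eval 0 * u0 * v0 + G.eval 0 * v0 ^ 2 = 0) :
    ∃ uf vf : K → K, Cv w uf u0 ∧ Cv w vf v0 ∧
      ∀ᶠ η in small w, A.eval η * uf η ^ 2 + B.eval η * uf η * vf η + G.eval η * vf η ^ 2 = 0 := by
  by_cases hv : v0 = 0
  · by_cases hu : u0 = 0
    · refine ⟨fun _ => 0, fun _ => 0, ?_, ?_, ?_⟩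
      · rw [hu]; exact Cv.const w 0
      · rw [hv]; exact Cv.const w 0
      · filter_upwards with η
        ring
    · obtain ⟨vf, h1, h2⟩ := conic_aux w hna G B A v0 u0 hu (fun h => hne ⟨h.2.2, h.2.1, h.1⟩)
        (by linear_combination hQ)
      refine ⟨fun _ => u0, vf, Cv.const w u0, h1, ?_⟩
      filter_upwards [h2] with η hη
      linear_combination hη
  · obtain ⟨uf, h1, h2⟩ := conic_aux w hna A B G u0 v0 hv hne hQ
    exact ⟨uf, fun _ => v0, h1, Cv.const w v0, h2⟩

/-- a line through a given parameter whose other small points are good -/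
theorem path (s0 t0 : K) (h : s0 ≠ 0 ∨ t0 ≠ 0) (bad : Finset K) : ∃ S T : K[X], S.eval 0 = s0 ∧
    T.eval 0 = t0 ∧ ∀ᶠ η in small w, S.eval η ≠ 0 ∧ T.eval η / S.eval η ∉ bad := by
  classical
  by_cases hs : s0 = 0
  · have ht : t0 ≠ 0 := h.resolve_left (fun h => h hs)
    refine ⟨X, C t0, by rw [eval_X, hs], by rw [eval_C], ?_⟩
    filter_upwards [ev_ne_zero w, ev_notMem w (bad.image fun x => t0 / x)] with η h1 h2
    rw [eval_X, eval_C]
    refine ⟨h1, fun h3 => h2 ?_⟩
    rw [Finset.mem_image]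
    exact ⟨_, h3, by field_simp⟩
  · refine ⟨C s0, C t0 + X, by rw [eval_C], by simp, ?_⟩
    filter_upwards [ev_notMem w (bad.image fun x => x * s0 - t0)] with η h2
    rw [eval_C]
    refine ⟨hs, fun h3 => h2 ?_⟩
    rw [Finset.mem_image]
    refine ⟨_, h3, ?_⟩
    simp only [eval_add, eval_C, eval_X]
    field_simp
    ring

/-- the homogenisation along a path -/
noncomputable def Hp (N : ℕ) (f S T : K[X]) : K[X] :=
  ∑ j ∈ Finset.range (N + 1), C (f.coeff j) * S ^ (N - j) * T ^ j

theorem Hp_eval (N : ℕ) (f S T : K[X]) (η : K) : (Hp N f S T).eval η = hv N f (S.eval η) (T.eval η) := by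
  unfold Hp hv
  rw [eval_finsetSum]
  apply Finset.sum_congr rfl
  intro j _
  simp only [eval_mul, eval_C, eval_pow]

end

theorem limit : S_limit := by
  intro K _ _ w hna hx n J hcone α β c a b A B G bad hβα ha hb hA hB hG hne hpt s t u v hst hQ
  have good : ∀ s t u v : K, s ≠ 0 → t / s ∉ bad →
      hv (c + 2 * (α - β)) A s t * u ^ 2 + hv (c + (α - β)) B s t * u * v + hv c G s t * v ^ 2 = 0 →
      (fun i => u * hv α (a i) s t + v * hv β (b i) s t) ∈ MvPolynomial.zeroLocus K J := by
    intro s t u v hs hbad hQ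
    rw [hv_eq hA hs, hv_eq hB hs, hv_eq hG hs] at hQ
    have h1 : A.eval (t / s) * (s ^ (α - β) * u) ^ 2 + B.eval (t / s) * (s ^ (α - β) * u) * v +
        G.eval (t / s) * v ^ 2 = 0 := by
      have h2 : s ^ c * (A.eval (t / s) * (s ^ (α - β) * u) ^ 2 + B.eval (t / s) * (s ^ (α - β) * u) * v +
        G.eval (t / s) * v ^ 2) = 0 := by
        rw [pow_add, pow_add, mul_comm 2 (α - β), pow_mul] at hQ
        linear_combination hQ
      exact (mul_eq_zero.1 h2).resolve_left (pow_ne_zero c hs)
    have h2 := hcone (s ^ β) _ (hpt (t / s) hbad _ _ h1)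
    convert h2 using 1
    funext i
    rw [Pi.smul_apply, smul_eq_mul, hv_eq (ha i) hs, hv_eq (hb i) hs]
    have e : s ^ α = s ^ β * s ^ (α - β) := by
      rw [← pow_add]
      congr 1
      omega
    rw [e]
    ring
  have := small_neBot w hx
  obtain ⟨S, T, hS, hT, hev⟩ := path w s t hst bad
  obtain ⟨uf, vf, hu, hv', hroot⟩ := conic w hna (Hp (c + 2 * (α - β)) A S T) (Hp (c + (α - β)) B S T)
    (Hp c G S T) u v (by
      rw [Hp_eval, Hp_eval, Hp_eval, hS, hT]
      exact hne s t hst) (by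
      rw [Hp_eval, Hp_eval, Hp_eval, hS, hT]
      exact hQ)
  rw [MvPolynomial.mem_zeroLocus_iff]
  intro P hP
  by_contra hne'
  have hp : ∀ i, Cv w (fun η => uf η * hv α (a i) (S.eval η) (T.eval η) + vf η * hv β (b i) (S.eval η) (T.eval η))
      (u * hv α (a i) s t + v * hv β (b i) s t) := by
    intro i
    have h1 := Cv.eval w (Hp α (a i) S T)
    have h2 := Cv.eval w (Hp β (b i) S T)
    simp only [Hp_eval] at h1 h2
    rw [hS, hT] at h1 h2
    exact Cv.add w (Cv.mul w hu h1) (Cv.mul w hv' h2)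
  have hc := Cv.mvEval w P _ _ hp
  unfold Cv at hc
  have hpos : 0 < w (MvPolynomial.eval (fun i => u * hv α (a i) s t + v * hv β (b i) s t) P) := w.pos hne'
  have hlt := hc.eventually_lt_const hpos
  obtain ⟨η, ⟨h1, h2⟩, h3⟩ := ((hlt.and hev).and hroot).exists
  rw [Hp_eval, Hp_eval, Hp_eval] at h3
  have h4 := good _ _ _ _ h2.1 h2.2 h3
  rw [MvPolynomial.mem_zeroLocus_iff] at h4
  have h5 := h4 P hP
  have h6 : MvPolynomial.eval (fun i => uf η * hv α (a i) (S.eval η) (T.eval η) +
      vf η * hv β (b i) (S.eval η) (T.eval η)) P = 0 := h5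
  beta_reduce at h1
  rw [h6, zero_sub, AbsoluteValue.map_neg] at h1
  exact lt_irrefl _ h1

end Pool.Agent.H97.HE
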