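import Pool.Agent.H20.HE.StmM
import Pool.Agent.H97.HE.Limit

/-!
# The points over the exceptional parameters are limits, forms of degree `m` (helper97, for helper20)
-/

set_option autoImplicit false

namespace Pool.Agent.H97.HE

open Polynomial Filter Topology
open Pool.Agent.H20.HE

section

variable {K : Type} [Field K] (w : AbsoluteValue K ℝ)

theorem form_aux [IsAlgClosed K] (hna : ∀ x y, w (x + y) ≤ max (w x) (w y)) (p : ℕ → K[X]) (m : ℕ) (u0 v0 : K)
    (hv0 : v0 ≠ 0) (hne : ∃ k ≤ m, (p k).eval 0 ≠ 0)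
    (hQ : ∑ k ∈ Finset.range (m + 1), (p k).eval 0 * u0 ^ k * v0 ^ (m - k) = 0) :
    ∃ uf : K → K, Cv w uf u0 ∧
      ∀ᶠ η in small w, ∑ k ∈ Finset.range (m + 1), (p k).eval η * uf η ^ k * v0 ^ (m - k) = 0 := by
  obtain ⟨F, hF⟩ : ∃ F : K[X][X], F = ∑ k ∈ Finset.range (m + 1),
      C (p k * C (v0 ^ (m - k))) * (X + C (C u0)) ^ k := ⟨_, rfl⟩
  have hmap : ∀ η : K, F.map (evalRingHom η) = ∑ k ∈ Finset.range (m + 1),
      C ((p k).eval η * v0 ^ (m - k)) * (X + C u0) ^ k := by
    intro η
    rw [hF, Polynomial.map_sum]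
    apply Finset.sum_congr rfl
    intro k _
    simp only [Polynomial.map_mul, map_C, Polynomial.map_pow, Polynomial.map_add, map_X, coe_evalRingHom,
      eval_mul, eval_C]
  have heval : ∀ η z : K, (F.map (evalRingHom η)).eval z =
      ∑ k ∈ Finset.range (m + 1), (p k).eval η * (z + u0) ^ k * v0 ^ (m - k) := by
    intro η z
    rw [hmap, eval_finsetSum]
    apply Finset.sum_congr rfl
    intro k _
    simp only [eval_mul, eval_C, eval_pow, eval_add, eval_X]
    ring
  have hc : ∀ j, (F.map (evalRingHom 0)).coeff j = (F.coeff j).eval 0 := by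
    intro j
    rw [coeff_map]
    rfl
  have h0 : (F.coeff 0).eval 0 = 0 := by
    rw [← hc 0, coeff_zero_eq_eval_zero, heval]
    simpa only [zero_add] using hQ
  have hF0 : F.map (evalRingHom 0) ≠ 0 := by
    intro h
    obtain ⟨k, hk, hpk⟩ := hne
    have h1 : ((F.map (evalRingHom 0)).comp (X - C u0)).coeff k = 0 := by
      rw [h, zero_comp, coeff_zero]
    have h2 : (F.map (evalRingHom 0)).comp (X - C u0) = ∑ k ∈ Finset.range (m + 1),
        C ((p k).eval 0 * v0 ^ (m - k)) * X ^ k := by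
      rw [hmap, comp, eval₂_finsetSum]
      apply Finset.sum_congr rfl
      intro k _
      simp only [eval₂_mul, eval₂_C, eval₂_pow, eval₂_add, eval₂_X, sub_add_cancel]
    rw [h2, finsetSum_coeff] at h1
    simp only [coeff_C_mul, coeff_X_pow] at h1
    rw [Finset.sum_eq_single k] at h1
    · rw [if_pos rfl, mul_one] at h1
      rcases mul_eq_zero.1 h1 with h3 | h3
      · exact hpk h3
      · exact pow_ne_zero _ hv0 h3
    · intro j _ hjk
      rw [if_neg (Ne.symm hjk), mul_zero]
    · intro hk'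
      exact absurd (Finset.mem_range.2 (Nat.lt_succ_of_le hk)) hk'
  obtain ⟨j, hj⟩ : ∃ j, (F.map (evalRingHom 0)).coeff j ≠ 0 := by
    by_contra hno
    push Not at hno
    exact hF0 (Polynomial.ext fun j => by rw [hno j, coeff_zero])
  have hj0 : 0 < j := by
    rcases Nat.eq_zero_or_pos j with rfl | h
    · exact absurd (by rw [hc, h0]) hj
    · exact h
  obtain ⟨z, hz1, hz2⟩ := root_fun w hna F j hj0 h0 (by rw [← hc]; exact hj)
  refine ⟨fun η => z η + u0, ?_, ?_⟩
  · have := Cv.add w hz1 (Cv.const w u0)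
    rwa [zero_add] at this
  · filter_upwards [hz2] with η hη
    rw [heval] at hη
    exact hη

theorem form [IsAlgClosed K] (hna : ∀ x y, w (x + y) ≤ max (w x) (w y)) (p : ℕ → K[X]) (m : ℕ) (u0 v0 : K)
    (hne : ∃ k ≤ m, (p k).eval 0 ≠ 0)
    (hQ : ∑ k ∈ Finset.range (m + 1), (p k).eval 0 * u0 ^ k * v0 ^ (m - k) = 0) :
    ∃ uf vf : K → K, Cv w uf u0 ∧ Cv w vf v0 ∧
      ∀ᶠ η in small w, ∑ k ∈ Finset.range (m + 1), (p k).eval η * uf η ^ k * vf η ^ (m - k) = 0 := by
  by_cases hv : v0 = 0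
  · by_cases hu : u0 = 0
    · rcases Nat.eq_zero_or_pos m with rfl | hm
      · exfalso
        obtain ⟨k, hk, hpk⟩ := hne
        have hk0 : k = 0 := Nat.le_zero.1 hk
        subst hk0
        apply hpk
        simpa using hQ
      · refine ⟨fun _ => 0, fun _ => 0, ?_, ?_, ?_⟩
        · rw [hu]; exact Cv.const w 0
        · rw [hv]; exact Cv.const w 0
        · filter_upwards with η
          apply Finset.sum_eq_zero
          intro k hk
          have hk' := Finset.mem_range.1 hk
          by_cases h : k = 0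
          · rw [h, Nat.sub_zero, zero_pow hm.ne', mul_zero]
          · rw [zero_pow h, mul_zero, zero_mul]
    · have hflip : ∀ (f : ℕ → K) (u v : K), ∑ k ∈ Finset.range (m + 1), f (m - k) * v ^ k * u ^ (m - k) =
          ∑ k ∈ Finset.range (m + 1), f k * u ^ k * v ^ (m - k) := by
        intro f u v
        rw [← Finset.sum_flip]
        apply Finset.sum_congr rfl
        intro k hk
        have hk' : k ≤ m := Nat.lt_succ_iff.1 (Finset.mem_range.1 hk)
        rw [Nat.sub_sub_self hk']
        ring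
      obtain ⟨vf, h1, h2⟩ := form_aux w hna (fun k => p (m - k)) m v0 u0 hu (by
          obtain ⟨k, hk, hpk⟩ := hne
          exact ⟨m - k, Nat.sub_le _ _, by rw [Nat.sub_sub_self hk]; exact hpk⟩) (by
          rw [hflip (fun k => (p k).eval 0)]
          exact hQ)
      refine ⟨fun _ => u0, vf, Cv.const w u0, h1, ?_⟩
      filter_upwards [h2] with η hη
      rw [hflip (fun k => (p k).eval η)] at hη
      exact hη
  · obtain ⟨uf, h1, h2⟩ := form_aux w hna p m u0 v0 hv hne hQ
    exact ⟨uf, fun _ => v0, h1, Cv.const w v0, h2⟩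

end

theorem limitM : S_limitM := by
  intro K _ _ w hna hx n J hcone e β c m a b q bad ha hb hq hne hpt s t u v hst hQ
  have good : ∀ s t u v : K, s ≠ 0 → t / s ∉ bad →
      ∑ k ∈ Finset.range (m + 1), hv (c + k * e) (q k) s t * u ^ k * v ^ (m - k) = 0 →
      (fun i => u * hv (β + e) (a i) s t + v * hv β (b i) s t) ∈ MvPolynomial.zeroLocus K J := by
    intro s t u v hs hbad hQ
    have h1 : ∑ k ∈ Finset.range (m + 1), (q k).eval (t / s) * (s ^ e * u) ^ k * v ^ (m - k) = 0 := by
      have h2 : s ^ c * ∑ k ∈ Finset.range (m + 1), (q k).eval (t / s) * (s ^ e * u) ^ k * v ^ (m - k) = 0 := by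
        rw [← hQ, Finset.mul_sum]
        apply Finset.sum_congr rfl
        intro k hk
        rw [hv_eq (hq k (Nat.lt_succ_iff.1 (Finset.mem_range.1 hk))) hs, pow_add, mul_pow, mul_comm k e, pow_mul]
        ring
      exact (mul_eq_zero.1 h2).resolve_left (pow_ne_zero c hs)
    have h2 := hcone (s ^ β) _ (hpt (t / s) hbad _ _ h1)
    convert h2 using 1
    funext i
    rw [Pi.smul_apply, smul_eq_mul, hv_eq (ha i) hs, hv_eq (hb i) hs, pow_add]
    ring
  have := small_neBot w hx
  obtain ⟨S, T, hS, hT, hev⟩ := path w s t hst bad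
  obtain ⟨uf, vf, hu, hv', hroot⟩ := form w hna (fun k => Hp (c + k * e) (q k) S T) m u v (by
      obtain ⟨k, hk, h⟩ := hne s t hst
      refine ⟨k, hk, ?_⟩
      rw [Hp_eval, hS, hT]
      exact h) (by
      simp only [Hp_eval, hS, hT]
      exact hQ)
  rw [MvPolynomial.mem_zeroLocus_iff]
  intro P hP
  by_contra hne'
  have hp : ∀ i, Cv w (fun η => uf η * hv (β + e) (a i) (S.eval η) (T.eval η) +
      vf η * hv β (b i) (S.eval η) (T.eval η)) (u * hv (β + e) (a i) s t + v * hv β (b i) s t) := by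
    intro i
    have h1 := Cv.eval w (Hp (β + e) (a i) S T)
    have h2 := Cv.eval w (Hp β (b i) S T)
    simp only [Hp_eval] at h1 h2
    rw [hS, hT] at h1 h2
    exact Cv.add w (Cv.mul w hu h1) (Cv.mul w hv' h2)
  have hc := Cv.mvEval w P _ _ hp
  unfold Cv at hc
  have hpos : 0 < w (MvPolynomial.eval (fun i => u * hv (β + e) (a i) s t + v * hv β (b i) s t) P) := w.pos hne'
  have hlt := hc.eventually_lt_const hpos
  obtain ⟨η, ⟨h1, h2⟩, h3⟩ := ((hlt.and hev).and hroot).exists
  simp only [Hp_eval] at h3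
  have h4 := good _ _ _ _ h2.1 h2.2 h3
  rw [MvPolynomial.mem_zeroLocus_iff] at h4
  have h5 := h4 P hP
  have h6 : MvPolynomial.eval (fun i => uf η * hv (β + e) (a i) (S.eval η) (T.eval η) +
      vf η * hv β (b i) (S.eval η) (T.eval η)) P = 0 := h5
  beta_reduce at h1
  rw [h6, zero_sub, AbsoluteValue.map_neg] at h1
  exact lt_irrefl _ h1

end Pool.Agent.H97.HE
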